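import Pool.Agent.helper84.TP.SpecC

set_option autoImplicit false

namespace Pool.Agent.TP

open Function

lemma M2_cl {G : Type} [Group G] {x y : G} (h : Commute x y) {z : G}
    (hz : z ∈ Subgroup.closure ({x, y} : Set G)) : ∃ m l : ℤ, z = x ^ m * y ^ l := by
  induction hz using Subgroup.closure_induction with
  | mem z hz =>
    rcases hz with rfl | hz
    · exact ⟨1, 0, by simp⟩
    · rw [Set.mem_singleton_iff] at hz
      subst hz
      exact ⟨0, 1, by simp⟩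
  | one => exact ⟨0, 0, by simp⟩
  | mul z z' _ _ ih ih' =>
    obtain ⟨m, l, rfl⟩ := ih
    obtain ⟨m', l', rfl⟩ := ih'
    refine ⟨m + m', l + l', ?_⟩
    have h1 : y ^ l * x ^ m' = x ^ m' * y ^ l := (h.zpow_zpow m' l).eq.symm
    calc x ^ m * y ^ l * (x ^ m' * y ^ l') = x ^ m * (y ^ l * x ^ m') * y ^ l' := by group
      _ = x ^ (m + m') * y ^ (l + l') := by rw [h1, zpow_add, zpow_add]; group
  | inv z _ ih =>
    obtain ⟨m, l, rfl⟩ := ih
    refine ⟨-m, -l, ?_⟩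
    rw [mul_inv_rev, zpow_neg, zpow_neg]
    exact ((h.zpow_zpow m l).inv_inv).eq.symm

lemma M2_vg {G : Type} [Group G] (p n : ℕ) (hp : 2 ≤ p) (y y' : ℕ → G) (w : List (Fin n × Bool))
    (h : ∀ i, ¬ p ∣ i → y i = y' i) : Vg p n y w = Vg p n y' w := by
  have h1 : ∀ s, y (1 + p * s) = y' (1 + p * s) := by
    intro s
    apply h
    intro hd
    have h2 : p ∣ 1 := (Nat.dvd_add_left (Dvd.intro s rfl)).mp hd
    have h3 := Nat.le_of_dvd one_pos h2
    omega
  have h4 : y 1 = y' 1 := by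
    have := h1 0
    rwa [mul_zero, add_zero] at this
  have h5 : y (1 + p) = y' (1 + p) := by
    have := h1 1
    rwa [mul_one] at this
  have h6 : ug p n y 1 = ug p n y' 1 := by
    funext i
    unfold ug
    rw [h1, h4, h5]
  unfold Vg
  rw [h6, h1]

lemma M2_comm {G : Type} [Group G] {a b : G} (h : b⁻¹ * a * b = a) : Commute a b := by
  have h1 : a * b = b * a := by
    calc a * b = b * (b⁻¹ * a * b) := by group
      _ = b * a := by rw [h]
  exact h1

theorem M2 (hMOD : MOD_stmt) (hHN2 : HN2_stmt) (hKEY : KEY_stmt) (hFRE : FRE_stmt)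
    (hTMA : TMA_stmt) (hGEN : GEN_stmt) : M2_stmt := by
  intro κ r w hκ hMd
  have hpr : Nat.Prime 467 := by norm_num
  obtain ⟨M, _, t, c, a, hM⟩ := hMOD 467 2 3 5 r w hpr (by decide) (le_refl 2) (by norm_num) hMd
  obtain ⟨B, _, π, hπa, hπv, hπc, hπt⟩ := hM.prj
  set b : M := t⁻¹ * a * t with hb
  set v : M := Vg 467 3 (yy t a) w with hv
  have hπb : π b = 1 := by
    rw [hb, map_mul, map_mul, hπa, map_inv]
    group
  have ha0 : ∀ m : ℤ, a ^ m = 1 → m = 0 := by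
    intro m hm
    exact (hM.ind1 m 0 (by rw [hm, zpow_zero, mul_one])).1
  have hind : Indep a (b * c) := by
    intro m l hml
    have h1 := congrArg π hml
    rw [map_mul, map_zpow, map_zpow, map_mul, hπa, hπb, one_zpow, one_mul, one_mul, map_one] at h1
    have h2 := hπc l h1
    subst h2
    rw [zpow_zero, mul_one] at hml
    exact ⟨ha0 m hml, rfl⟩
  have habc : Commute a (b * c) := hM.aa.mul_right hM.ac
  obtain ⟨M1, _, ι, β, hβa, hβb, hBr, δ, hδι, hδβ⟩ :=
    hHN2 M a b (b * c) hM.aa habc hM.ind1 hind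
  have hinj : Injective ι := hBr.1
  have hcβ : Commute (ι a) β := M2_comm hβa
  have hcv : Commute (ι a) (ι v) := hM.av.map ι
  have hcT : Commute (ι a) (ι (t ^ (467 ^ 2))) := hM.at'.map ι
  set u : M1 := ι v * β * (ι (t ^ (467 ^ 2)))⁻¹ with hu
  have hcu : Commute (ι a) u := (hcv.mul_right hcβ).mul_right hcT.inv_right
  have hδu : δ u = Multiplicative.ofAdd 1 := by
    rw [hu, map_mul, map_mul, map_inv, hδι, hδι, hδβ, one_mul, inv_one, mul_one]
  have hofl : ∀ l : ℤ, (Multiplicative.ofAdd (1 : ℤ)) ^ l = 1 → l = 0 := by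
    intro l hl
    rw [← ofAdd_zsmul, smul_eq_mul, mul_one] at hl
    exact ofAdd_eq_one.mp hl
  have hιa0 : ∀ m : ℤ, ι a ^ m = 1 → m = 0 := by
    intro m hm
    rw [← map_zpow] at hm
    exact ha0 m ((map_eq_one_iff ι hinj).mp hm)
  have hind2 : Indep (ι a) (ι v) := by
    intro m l hml
    rw [← map_zpow, ← map_zpow, ← map_mul] at hml
    exact hM.ind2 m l ((map_eq_one_iff ι hinj).mp hml)
  have hind3 : Indep (ι a) u := by
    intro m l hml
    have h1 := congrArg δ hml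
    rw [map_mul, map_zpow, map_zpow, hδι, hδu, one_zpow, one_mul, map_one δ] at h1
    have h2 := hofl l h1
    subst h2
    rw [zpow_zero, mul_one] at hml
    exact ⟨hιa0 m hml, rfl⟩
  obtain ⟨M2, _, ι', ξ, hξa, hξv, hBr', _, _, _⟩ :=
    hHN2 M1 (ι a) (ι v) u hcv hcu hind2 hind3
  -- relations in `M2`
  have e1 : c⁻¹ * t * c = t ^ 2 := hM.tc
  have f1 : (ι' (ι c))⁻¹ * ι' (ι t) * ι' (ι c) = ι' (ι t) ^ 2 := by
    rw [← map_pow, ← map_pow, ← e1]
    simp only [map_mul, map_inv]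
  have f2 : Commute (ι' (ι a)) (ι' (ι c)) := (hM.ac.map ι).map ι'
  have f3 : Commute (ι' (ι a)) (ι' (ι t) ^ (467 ^ 2)) := by
    have h1 := hcT.map ι'
    rw [map_pow, map_pow] at h1
    exact h1
  have fb : (ι' (ι t))⁻¹ * ι' (ι a) * ι' (ι t) = ι' (ι b) := by
    rw [hb]
    simp only [map_mul, map_inv]
  have f4 : Commute (ι' (ι a)) ((ι' (ι t))⁻¹ * ι' (ι a) * ι' (ι t)) := by
    rw [fb]
    exact (hM.aa.map ι).map ι'
  have hT := hTMA M2 (ι' (ι t)) (ι' (ι c)) (ι' (ι a)) 467 2 hpr hGEN f1 f2 f3 f4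
  have hyk : ∀ i, ¬ 467 ∣ i →
      yκ κ ((ι' (ι t))⁻¹ * ι' (ι a) * ι' (ι t)) (ι' (ι c)) i = yy (ι' (ι t)) (ι' (ι a)) i := by
    intro i hi
    have h1 := hT.2.2.1 (κ i)
    have h2 := hT.2.2.2.1 (2 ^ κ i) i (hκ i hi)
    rw [← h2, ← h1]
    unfold yκ yy
    rw [pow_one]
  have hV : Vg 467 3 (yκ κ ((ι' (ι t))⁻¹ * ι' (ι a) * ι' (ι t)) (ι' (ι c))) w = ι' (ι v) := by
    rw [M2_vg 467 3 (by norm_num) _ _ w hyk, hv, map_Vg, map_Vg]
    congr 1
    funext i
    rw [map_yy, map_yy]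
  refine ⟨M2, inferInstance, ι' (ι t), ι' (ι c), ι' (ι a), ι' β, ξ, hcβ.map ι', M2_comm hξa,
    ?_, f1, ?_, f4, ?_, ?_⟩
  · rw [fb]
    have h1 : cm (ι b) β = ι c := by
      unfold cm
      calc (ι b)⁻¹ * β⁻¹ * ι b * β = (ι b)⁻¹ * (β⁻¹ * ι b * β) := by group
        _ = ι c := by rw [hβb, map_mul ι b c, inv_mul_cancel_left]
    rw [← map_cm, h1]
  · rw [hV]
    unfold cm
    have h1 : (ι' (ι v))⁻¹ * ξ⁻¹ * ι' (ι v) * ξ = (ι' (ι v))⁻¹ * (ξ⁻¹ * ι' (ι v) * ξ) := by group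
    rw [h1, hξv, hu, map_mul, map_mul, map_inv, map_pow, map_pow]
    generalize ι' (ι t) ^ (467 ^ 2) = X
    group
  · have h1 := congrArg ι' (congrArg ι hM.rel)
    rw [map_Rg, map_Rg, map_one, map_one] at h1
    rw [← h1]
    congr 1
    funext i
    rw [map_yy, map_yy]
  · apply hFRE M1 M2 ι' ξ _ _ (ι a) β hBr' hcβ hιa0
    · intro m j hmj
      have h1 : ∀ x ∈ Subgroup.closure ({ι a, ι v} : Set M1), δ x = 1 := by
        intro x hx
        have h2 : Subgroup.closure ({ι a, ι v} : Set M1) ≤ δ.ker := by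
          rw [Subgroup.closure_le]
          rintro y (rfl | rfl)
          · exact hδι a
          · exact hδι v
        exact h2 hx
      have h3 := h1 _ hmj
      rw [map_mul, map_zpow, map_zpow, hδι, hδβ, one_zpow, one_mul] at h3
      exact hofl j h3
    · intro m j hmj
      obtain ⟨m', l, hml⟩ := M2_cl hcu hmj
      have h1 : β ^ j = ι a ^ (m' - m) * u ^ l := by
        have h2 : β ^ j = (ι a ^ m)⁻¹ * (ι a ^ m * β ^ j) := by group
        rw [h2, hml, zpow_sub]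
        have h3 : Commute (ι a ^ m') (ι a ^ m)⁻¹ :=
          ((Commute.refl (ι a)).zpow_zpow m' m).inv_right
        rw [h3.eq, mul_assoc]
      exact hKEY M M1 B ι β a b c (t ^ (467 ^ 2)) v π δ hBr hβa hβb hM.av hM.at' hπa hπb
        (fun m => by
          rw [map_pow]
          exact hπt m) hδι hδβ (m' - m) j l h1

end Pool.Agent.TP
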